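import Pool.Agent.Work.MP_df5a7a_co.Counter

namespace Pool.Agent.Results.MP_df5a7a_co.Disproof

open Pool.Agent.Work.MP_df5a7a_co

/-- There are arbitrarily large connected graphs of minimum degree at least 2 with
`td G > (n - 2 √n) / 4 + 1 / 2`. -/
theorem result :
    ∀ N : ℕ, ∃ (V : Type) (_ : Fintype V) (G : SimpleGraph V) (_ : DecidableRel G.Adj),
      4 ≤ Fintype.card V ∧ N ≤ Fintype.card V ∧ G.Connected ∧ 2 ≤ G.minDegree ∧
        (1 / 4 : ℝ) * ((Fintype.card V : ℝ) - 2 * Real.sqrt (Fintype.card V : ℝ)) + 1 / 2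
          < (td G : ℝ) := by
  intro N
  classical
  refine ⟨Vx N, inferInstance, Gr N, inferInstance, ?_, ?_, Gr_connected N, Gr_minDegree N,
    bound_lt N⟩
  · rw [card_Vx]
    nlinarith [Nat.zero_le N]
  · rw [card_Vx]
    nlinarith [Nat.zero_le N]

end Pool.Agent.Results.MP_df5a7a_co.Disproof
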