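import Pool.Agent.Work.MP_df5a7a_co.Upper

namespace Pool.Agent.Results.MP_df5a7a_co.UpperBound

open Pool.Agent.Work.MP_df5a7a_co

/-- Every graph on `n ≥ 1024` vertices with minimum degree at least 2 has
`td G ≤ (n - 2 √n) / 4 + 3 / 4`, hence `td G ≤ ⌈(n - 2 √n) / 4⌉`. -/
theorem result :
    ∀ (V : Type) [Fintype V] (G : SimpleGraph V) [DecidableRel G.Adj],
      1024 ≤ Fintype.card V → 2 ≤ G.minDegree →
        (td G : ℝ) ≤
            (1 / 4 : ℝ) * ((Fintype.card V : ℝ) - 2 * Real.sqrt (Fintype.card V : ℝ)) + 3 / 4 ∧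
          (td G : ℤ) ≤
            ⌈(1 / 4 : ℝ) * ((Fintype.card V : ℝ) - 2 * Real.sqrt (Fintype.card V : ℝ))⌉ := by
  intro V _ G _ hn hd
  classical
  have h := td_upper G (fun v => hd.trans (G.minDegree_le_degree v)) hn
  refine ⟨h, ?_⟩
  rw [Int.le_ceil_iff]
  push_cast
  linarith

end Pool.Agent.Results.MP_df5a7a_co.UpperBound
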